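import Pool.Agent.W262.S3.Stm

/-!
# Project S3: separability modulo large primes
-/

set_option autoImplicit false

namespace Pool.Agent.W762.S3

open Polynomial

theorem exists_bezout (P : ℤ[X]) (hP : (P.map (Int.castRingHom ℚ)).Separable) :
    ∃ (A B : ℤ[X]) (N : ℤ), N ≠ 0 ∧ A * P + B * derivative P = C N := by
  obtain ⟨a, b, hab⟩ := hP
  obtain ⟨m, hm0, hm⟩ := IsLocalization.integerNormalization_spec (nonZeroDivisors ℤ) a
  obtain ⟨n, hn0, hn⟩ := IsLocalization.integerNormalization_spec (nonZeroDivisors ℤ) b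
  set A := IsLocalization.integerNormalization (nonZeroDivisors ℤ) a
  set B := IsLocalization.integerNormalization (nonZeroDivisors ℤ) b
  have hc : algebraMap ℤ ℚ = Int.castRingHom ℚ := RingHom.ext_int _ _
  rw [hc] at hm hn
  refine ⟨C n * A, C m * B, n * m,
    mul_ne_zero (nonZeroDivisors.ne_zero hn0) (nonZeroDivisors.ne_zero hm0), ?_⟩
  apply Polynomial.map_injective (Int.castRingHom ℚ) Int.cast_injective
  simp only [Polynomial.map_add, Polynomial.map_mul, Polynomial.map_C, hm, hn,
    ← Polynomial.derivative_map]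
  rw [derivative_map] at hab
  have e1 : m • a = C ((Int.castRingHom ℚ) m) * a := by
    rw [← Int.cast_smul_eq_zsmul ℚ, smul_eq_C_mul]
    simp
  have e2 : n • b = C ((Int.castRingHom ℚ) n) * b := by
    rw [← Int.cast_smul_eq_zsmul ℚ, smul_eq_C_mul]
    simp
  rw [e1, e2, map_mul, C_mul]
  rw [← derivative_map] at hab
  calc _ = C ((Int.castRingHom ℚ) n) * C ((Int.castRingHom ℚ) m) *
      (a * P.map (Int.castRingHom ℚ) + b * derivative (P.map (Int.castRingHom ℚ))) := by ring
    _ = _ := by rw [hab, mul_one]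

theorem sepz : Pool.Agent.W262.S3.SEPZ := by
  intro K _ _ f hf
  obtain ⟨h1, -, h3⟩ := hf
  have hsep : (∏ k, (f k).map (Int.castRingHom ℚ)).Separable := by
    refine separable_prod ?_ fun k => (h1 k).separable
    intro k l hkl
    by_cases h : (f k).map (Int.castRingHom ℚ) ∣ (f l).map (Int.castRingHom ℚ)
    · exact absurd ((h1 k).associated_of_dvd (h1 l) h) (h3 k l hkl)
    · exact (h1 k).coprime_iff_not_dvd.2 h
  refine ⟨hsep, ?_⟩
  have hsep' := hsep
  rw [← Polynomial.map_prod] at hsep'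
  obtain ⟨A, B, N, hN, hAB⟩ := exists_bezout _ hsep'
  refine ⟨N.natAbs + ∑ k, (f k).leadingCoeff.natAbs, fun p hp hpz => ?_⟩
  have hdvd : ∀ a : ℤ, a ≠ 0 → (p : ℤ) ∣ a → p ≤ a.natAbs := by
    intro a ha h
    exact Nat.le_of_dvd (Int.natAbs_pos.2 ha) (Int.natCast_dvd.1 h)
  constructor
  · intro k hk
    have h4 : (f k).leadingCoeff ≠ 0 := by
      intro h
      rw [leadingCoeff_eq_zero] at h
      have := (h1 k).ne_zero
      rw [h, Polynomial.map_zero] at this
      exact this rfl
    have h5 := hdvd _ h4 hk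
    have h6 : (f k).leadingCoeff.natAbs ≤ ∑ k, (f k).leadingCoeff.natAbs :=
      Finset.single_le_sum (f := fun k => (f k).leadingCoeff.natAbs) (fun _ _ => Nat.zero_le _)
        (Finset.mem_univ k)
    omega
  · have : Fact p.Prime := ⟨hp⟩
    have hNp : ((Int.castRingHom (ZMod p)) N) ≠ 0 := by
      intro h
      have h5 := hdvd _ hN ((ZMod.intCast_zmod_eq_zero_iff_dvd N p).1 h)
      omega
    rw [← Polynomial.map_prod]
    have h6 := congrArg (Polynomial.map (Int.castRingHom (ZMod p))) hAB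
    simp only [Polynomial.map_add, Polynomial.map_mul, Polynomial.map_C] at h6
    refine ⟨C ((Int.castRingHom (ZMod p)) N)⁻¹ * A.map (Int.castRingHom (ZMod p)),
      C ((Int.castRingHom (ZMod p)) N)⁻¹ * B.map (Int.castRingHom (ZMod p)), ?_⟩
    rw [derivative_map, mul_assoc, mul_assoc, ← mul_add, h6, ← C_mul, inv_mul_cancel₀ hNp, C_1]

end Pool.Agent.W762.S3
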